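import Pool.Agent.TH638.Skew.Sphere
import Pool.Agent.Results.MP_794fdb_gt.MoebiusBand

/-!
The totally skew embedding dimension of the real projective plane is `7`.

Upper bound: with `ℝ³ = ℂ × ℝ`, points `(w, z)`, the even map
`(w z - 14 i ε δ w⁸, w² + 10 i δ w⁶, z² - δ (32 z⁴ + 44 ε² Im w¹⁰), w³ z + ε (w⁶ + conj w⁴))`
of `S²` into `ℂ × ℂ × ℝ × ℂ = ℝ⁷` induces a totally skew embedding of `ℝP²` for small `ε > 0` and
then small `δ > 0`. For `δ = 0` the first three components are the Veronese embedding, which has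
exactly one relation for each pair of points, namely the one along the great circle through them,
and the remaining components, together with the first order part in `δ` of the component of the
Veronese matrix along the normal of the circle, do not vanish on it; this is also true in the limit
of coinciding points, and compactness concludes (`Pool/Agent/TH638/Skew`).

Lower bound: `Pool/Agent/Results/MP_3c016c_gt/DimensionTwo.lean`.
-/

namespace Pool.Agent.Results.MP_794fdb_gt.ProjectivePlaneSeven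

open scoped Manifold ContDiff
open Set Topology Module Filter
open Pool.Agent.Results.MP_794fdb_gt.OrientableSurfaces
open Pool.Agent.Results.MP_3c016c_gt.DimensionTwo
open Pool.Agent.Results.MP_794fdb_gt.MoebiusBand
open Pool.Agent.TH638.Skew

noncomputable section

/-- The unit sphere of `ℝ³`. -/
abbrev S2 := Metric.sphere (0 : Eu 3) 1

section defs

variable {E H M : Type*} [NormedAddCommGroup E] [NormedSpace ℝ E] [TopologicalSpace H]
  (I : ModelWithCorners ℝ E H) [TopologicalSpace M] [ChartedSpace H M]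

/-- `M` is a real projective plane: there is a surjective local diffeomorphism from the unit sphere
of `ℝ³` to `M` whose fibres are the pairs of antipodal points. -/
def IsProjectivePlane (M : Type*) [TopologicalSpace M] [ChartedSpace H M] : Prop :=
  ∃ j : S2 → M, IsLocalDiffeomorph (𝓡 2) I ∞ j ∧ Function.Surjective j ∧
    ∀ x y, j x = j y ↔ EqOrAntipodal x y

end defs

/-! ### The map of the sphere -/

/-- The identification `ℝ³ = ℂ × ℝ`. -/
abbrev PP := Pool.Agent.Results.MP_794fdb_gt.OrientableSurfaces.P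

/-- The map `ℝ³ → ℝ⁷`. -/
def Map (ε δ : ℝ) (p : Eu 3) : Eu 7 := L (FF ε δ (PP p))

lemma contDiff_Map (ε δ : ℝ) : ContDiff ℝ ∞ (Map ε δ) :=
  L.contDiff.comp ((contDiff_FF ε δ).comp PP.contDiff)

/-- The derivative of `Map`. -/
def DMap (ε δ : ℝ) (p : Eu 3) : Eu 3 →L[ℝ] Eu 7 :=
  (L : (ℂ × ℂ × ℝ × ℂ) →L[ℝ] Eu 7).comp ((fderiv ℝ (FF ε δ) (PP p)).comp PP)

lemma DMap_apply (ε δ : ℝ) (p a : Eu 3) :
    DMap ε δ p a = L (fderiv ℝ (FF ε δ) (PP p) (PP a)) := rfl

lemma hasFDerivAt_Map (ε δ : ℝ) (p : Eu 3) : HasFDerivAt (Map ε δ) (DMap ε δ p) p :=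
  (L : (ℂ × ℂ × ℝ × ℂ) →L[ℝ] Eu 7).hasFDerivAt.comp p
    ((((contDiff_FF ε δ).differentiable (by simp)) (PP p)).hasFDerivAt.comp p PP.hasFDerivAt)

/-- The even map `S² → ℝ⁷`. -/
def sMap (ε δ : ℝ) (x : S2) : Eu 7 := Map ε δ (x : Eu 3)

/-- The tangent vector of `ℝ³` corresponding to `v ∈ T_x S²`. -/
def inc (x : S2) (v : TangentSpace (𝓡 2) x) : Eu 3 :=
  mfderiv (𝓡 2) 𝓘(ℝ, Eu 3) (fun x : S2 => (x : Eu 3)) x v

lemma inc_orth (x : S2) (v : TangentSpace (𝓡 2) x) : dot (PP (x : Eu 3)) (PP (inc x v)) = 0 := by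
  have h : inc x v ∈ (Submodule.span ℝ {(x : Eu 3)})ᗮ := by
    rw [← range_mfderiv_coe_sphere (n := 2) x]
    exact ⟨v, rfl⟩
  rw [Submodule.mem_orthogonal_singleton_iff_inner_right] at h
  rw [PiLp.inner_apply, Fin.sum_univ_three] at h
  simp at h
  simp only [dot, P_apply]
  linarith

lemma inc_inj (x : S2) (v : TangentSpace (𝓡 2) x) (h : PP (inc x v) = 0) : v = 0 := by
  apply (injective_iff_map_eq_zero _).mp (injective_mvfderiv_subtypeVal_sphere x) v
  show inc x v = 0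
  rw [P_apply, Prod.mk_eq_zero] at h
  obtain ⟨h1, h2⟩ := h
  rw [Complex.ext_iff] at h1
  ext i
  fin_cases i
  · simpa using h1.1
  · simpa using h1.2
  · simpa using h2

lemma norm_coord (x : S2) : dot (PP (x : Eu 3)) (PP (x : Eu 3)) = 1 := by
  have hx : ‖(x : Eu 3)‖ = 1 := by simp
  rw [EuclideanSpace.norm_eq, Real.sqrt_eq_one] at hx
  simp only [Fin.sum_univ_three, Real.norm_eq_abs, sq_abs] at hx
  simp only [dot, P_apply]
  linarith

lemma PP_inj {p q : Eu 3} (h : PP p = PP q) : p = q := by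
  rw [P_apply, P_apply, Prod.mk.injEq] at h
  obtain ⟨h1, h2⟩ := h
  rw [Complex.ext_iff] at h1
  ext i
  fin_cases i
  · simpa using h1.1
  · simpa using h1.2
  · simpa using h2

lemma PP_eq_iff (x y : S2) : PP (x : Eu 3) = PP (y : Eu 3) ↔ x = y :=
  ⟨fun h => Subtype.ext (PP_inj h), fun h => by rw [h]⟩

lemma PP_eq_neg_iff (x y : S2) : PP (x : Eu 3) = -PP (y : Eu 3) ↔ x = -y := by
  rw [← map_neg]
  constructor
  · intro h
    exact Subtype.ext (PP_inj h)
  · intro h
    rw [h]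
    rfl

lemma hasMFDerivAt_sMap (ε δ : ℝ) (x : S2) : HasMFDerivAt (𝓡 2) 𝓘(ℝ, Eu 7) (sMap ε δ) x
    ((DMap ε δ (x : Eu 3)).comp (mfderiv (𝓡 2) 𝓘(ℝ, Eu 3) (fun x : S2 => (x : Eu 3)) x)) :=
  (hasFDerivAt_Map ε δ (x : Eu 3)).hasMFDerivAt.comp x
    ((contMDiff_coe_sphere (m := 1)).mdifferentiable (by simp) x).hasMFDerivAt

lemma tan_sMap (ε δ : ℝ) (x : S2) (v : TangentSpace (𝓡 2) x) :
    tanMap (I := 𝓡 2) (sMap ε δ) x v = DMap ε δ (x : Eu 3) (inc x v) := by
  unfold tanMap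
  rw [(hasMFDerivAt_sMap ε δ x).mfderiv]
  rfl

lemma contMDiff_sMap (ε δ : ℝ) : ContMDiff (𝓡 2) 𝓘(ℝ, Eu 7) ∞ (sMap ε δ) :=
  (contDiff_Map ε δ).contMDiff.comp contMDiff_coe_sphere

lemma sMap_eq_iff {ε δ : ℝ} (hA : Adm ε δ) (x y : S2) :
    sMap ε δ x = sMap ε δ y ↔ EqOrAntipodal x y := by
  constructor
  · intro h
    have h1 : FF ε δ (PP x) = FF ε δ (PP y) := L.injective h
    rcases FF_inj hA (norm_coord x) (norm_coord y) h1 with h2 | h2
    · exact Or.inl ((PP_eq_iff x y).mp h2)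
    · exact Or.inr ((PP_eq_neg_iff x y).mp h2)
  · rintro (rfl | h)
    · rfl
    · rw [← PP_eq_neg_iff] at h
      unfold sMap Map
      rw [h, FF_neg]

lemma relation {ε δ : ℝ} (hA : Adm ε δ) {x y : S2} (hne : ¬ EqOrAntipodal x y) (α : ℝ)
    (v : TangentSpace (𝓡 2) x) (w : TangentSpace (𝓡 2) y)
    (h : α • (sMap ε δ x - sMap ε δ y) + (tanMap (sMap ε δ) x v - tanMap (sMap ε δ) y w) = 0) :
    α = 0 ∧ v = 0 ∧ w = 0 := by
  rw [tan_sMap, tan_sMap, DMap_apply, DMap_apply] at h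
  have hr' : L (α • (FF ε δ (PP x) - FF ε δ (PP y)) + (fderiv ℝ (FF ε δ) (PP x) (PP (inc x v)) -
      fderiv ℝ (FF ε δ) (PP y) (PP (inc y w)))) = 0 := by
    rw [map_add, map_smul, map_sub, map_sub]
    exact h
  have h1 := (map_eq_zero_iff L L.injective).mp hr'
  have h2 := no_rel hA (norm_coord x) (norm_coord y) (fun e => hne (Or.inl ((PP_eq_iff x y).mp e)))
    (fun e => hne (Or.inr ((PP_eq_neg_iff x y).mp e))) (inc_orth x v) (inc_orth y w) h1
  exact ⟨h2.1, inc_inj x v h2.2.1, inc_inj y w h2.2.2⟩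

lemma immersion {ε δ : ℝ} (hA : Adm ε δ) (x : S2) (v : TangentSpace (𝓡 2) x)
    (h : tanMap (sMap ε δ) x v = 0) : v = 0 := by
  rw [tan_sMap, DMap_apply] at h
  have h1 : fderiv ℝ (FF ε δ) (PP (x : Eu 3)) (PP (inc x v)) = 0 :=
    (map_eq_zero_iff L L.injective).mp h
  exact inc_inj x v (FF_immersion hA (norm_coord x) (inc_orth x v) h1)

/-- There is an even totally skew immersion of `S²` into `ℝ⁷` with antipodal fibres. -/
theorem plane_seven : ProjectivePlaneHasTotallySkewEmbedding 7 := by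
  obtain ⟨ε, δ, hA⟩ := exists_adm
  refine ⟨sMap ε δ, ⟨⟨contMDiff_sMap ε δ, ?_⟩, ?_⟩, sMap_eq_iff hA⟩
  · intro x
    rw [injective_iff_map_eq_zero]
    intro v hv
    exact immersion hA x v hv
  · intro x y hxy
    apply skew_of
    intro α v w hr
    exact relation hA (fun e => hxy ((sMap_eq_iff hA x y).mpr e)) α v w hr

/-- The lower bound. -/
theorem plane_lower {N : ℕ} (h : ProjectivePlaneHasTotallySkewEmbedding N) : 7 ≤ N := by
  obtain ⟨φ, hφ, hfib⟩ := h
  exact seven_le hφ ⟨sig_contMDiff, sig_immersion⟩ (fun p q => (hfib _ _).trans (sig_fibres p q))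

section mfld

variable {E H M : Type*} [NormedAddCommGroup E] [NormedSpace ℝ E] [TopologicalSpace H]
  {I : ModelWithCorners ℝ E H} [TopologicalSpace M] [ChartedSpace H M]

/-- From the sphere to the quotient. -/
theorem descend {N : ℕ} (hM : IsProjectivePlane I M)
    (h : ProjectivePlaneHasTotallySkewEmbedding N) : HasTotallySkewEmbedding I M N := by
  obtain ⟨φ, hφ, hφf⟩ := h
  obtain ⟨j, hj, hsurj, hfib⟩ := hM
  have hsurj' := hsurj
  choose s hs using hsurj'
  set ψ : M → Eu N := fun q => φ (s q) with hψ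
  have hψj : ∀ p, ψ (j p) = φ p := fun p =>
    (hφf _ _).mpr ((hfib _ _).mp (hs (j p)))
  have hsm : ContMDiff I 𝓘(ℝ, Eu N) ∞ ψ := by
    intro q
    obtain ⟨p, rfl⟩ := hsurj q
    have h1 : ContMDiffAt I 𝓘(ℝ, Eu N) ∞ (φ ∘ (hj p).localInverse) (j p) :=
      (hφ.smooth.contMDiffAt).comp (j p) (hj p).localInverse_contMDiffAt
    refine h1.congr_of_eventuallyEq ?_
    filter_upwards [(hj p).localInverse.open_source.mem_nhds (hj p).localInverse_mem_source]
      with y hy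
    have h2 := (hj p).localInverse_right_inv hy
    show ψ y = φ ((hj p).localInverse y)
    rw [← hψj, h2]
  have hder : ∀ p (a : TangentSpace (𝓡 2) p),
      tanMap (I := I) ψ (j p) (mfderiv (𝓡 2) I j p a) = tanMap (I := 𝓡 2) φ p a := by
    intro p a
    have h1 : HasMFDerivAt (𝓡 2) I j p (mfderiv (𝓡 2) I j p) :=
      ((hj p).mdifferentiableAt (by simp)).hasMFDerivAt
    have h2 : HasMFDerivAt I 𝓘(ℝ, Eu N) ψ (j p) (mfderiv I 𝓘(ℝ, Eu N) ψ (j p)) :=
      (hsm.mdifferentiable (by simp) (j p)).hasMFDerivAt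
    have h3 : mfderiv (𝓡 2) 𝓘(ℝ, Eu N) (fun p => ψ (j p)) p = _ := (h2.comp p h1).mfderiv
    have h4 : (fun p => ψ (j p)) = φ := funext hψj
    rw [h4] at h3
    unfold tanMap
    rw [h3]
    rfl
  have hex : ∀ p (v : TangentSpace I (j p)), ∃ a : TangentSpace (𝓡 2) p,
      mfderiv (𝓡 2) I j p a = v := by
    intro p v
    exact ((hj p).mfderivToContinuousLinearEquiv (by simp)).surjective v
  have hi : ∀ p (a : TangentSpace (𝓡 2) p), tanMap φ p a = 0 → a = 0 := fun p a ha =>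
    (injective_iff_map_eq_zero _).mp (hφ.immersion p) a ha
  have hz : ∀ p : S2, mfderiv (𝓡 2) I j p (0 : TangentSpace (𝓡 2) p) = 0 := fun p =>
    map_zero (mfderiv (𝓡 2) I j p)
  have hcomp : CompactSpace M := by
    have hc : Continuous j := hj.contMDiff.continuous
    have : IsCompact (range j) := isCompact_range hc
    rw [hsurj.range_eq] at this
    exact ⟨this⟩
  have hinj : Function.Injective ψ := by
    intro x y hxy
    obtain ⟨p, rfl⟩ := hsurj x
    obtain ⟨q, rfl⟩ := hsurj y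
    rw [hψj, hψj] at hxy
    exact (hfib p q).mpr ((hφf p q).mp hxy)
  refine ⟨ψ, ⟨hsm, ?_, (hsm.continuous.isClosedEmbedding hinj).isEmbedding⟩, ?_⟩
  · intro q
    obtain ⟨p, rfl⟩ := hsurj q
    rw [injective_iff_map_eq_zero]
    intro v hv
    obtain ⟨a, rfl⟩ := hex p v
    have hv' : tanMap (I := I) ψ (j p) (mfderiv (𝓡 2) I j p a) = 0 := hv
    rw [hder] at hv'
    rw [hi p a hv', hz]
  · intro x y hxy
    obtain ⟨p, rfl⟩ := hsurj x
    obtain ⟨q, rfl⟩ := hsurj y
    apply skew_of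
    intro α v w hr
    obtain ⟨a, rfl⟩ := hex p v
    obtain ⟨b, rfl⟩ := hex q w
    rw [hder, hder, hψj, hψj] at hr
    rw [hψj, hψj] at hxy
    obtain ⟨r1, r2, r3⟩ := of_skew φ p q (hφ.skew p q hxy) (hi p) (hi q) α a b hr
    refine ⟨r1, ?_, ?_⟩
    · rw [r2, hz]
    · rw [r3, hz]

/-- From the quotient to the sphere. -/
theorem lift {N : ℕ} (hM : IsProjectivePlane I M) (h : HasTotallySkewEmbedding I M N) :
    ProjectivePlaneHasTotallySkewEmbedding N := by
  obtain ⟨ψ, hψ⟩ := h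
  obtain ⟨j, hj, hsurj, hfib⟩ := hM
  have hder : ∀ p (a : TangentSpace (𝓡 2) p), tanMap (I := 𝓡 2) (fun p => ψ (j p)) p a =
      tanMap (I := I) ψ (j p) (mfderiv (𝓡 2) I j p a) := by
    intro p a
    have h1 : HasMFDerivAt (𝓡 2) I j p (mfderiv (𝓡 2) I j p) :=
      ((hj p).mdifferentiableAt (by simp)).hasMFDerivAt
    have h2 : HasMFDerivAt I 𝓘(ℝ, Eu N) ψ (j p) (mfderiv I 𝓘(ℝ, Eu N) ψ (j p)) :=
      (hψ.smooth.mdifferentiable (by simp) (j p)).hasMFDerivAt
    have h3 : mfderiv (𝓡 2) 𝓘(ℝ, Eu N) (fun p => ψ (j p)) p = _ := (h2.comp p h1).mfderiv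
    unfold tanMap
    rw [h3]
    rfl
  have hi : ∀ x (v : TangentSpace I x), tanMap ψ x v = 0 → v = 0 := fun x v hv =>
    (injective_iff_map_eq_zero _).mp (hψ.immersion x) v hv
  have hji : ∀ p (a : TangentSpace (𝓡 2) p), mfderiv (𝓡 2) I j p a = 0 → a = 0 := fun p a ha =>
    (injective_iff_map_eq_zero _).mp
      ((hj p).mfderivToContinuousLinearEquiv (by simp)).injective a ha
  refine ⟨fun p => ψ (j p), ⟨⟨hψ.smooth.comp hj.contMDiff, ?_⟩, ?_⟩, ?_⟩
  · intro p
    rw [injective_iff_map_eq_zero]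
    intro a ha
    have ha' : tanMap (I := 𝓡 2) (fun p => ψ (j p)) p a = 0 := ha
    rw [hder] at ha'
    exact hji p a (hi _ _ ha')
  · intro p q hpq
    apply skew_of
    intro α a b hr
    rw [hder, hder] at hr
    obtain ⟨r1, r2, r3⟩ := of_skew ψ (j p) (j q) (hψ.skew _ _ hpq) (hi _) (hi _) α _ _ hr
    exact ⟨r1, hji p a r2, hji q b r3⟩
  · intro x y
    exact hψ.embedding.injective.eq_iff.trans (hfib x y)

end mfld

/-- `N(ℝP²) = 7`. -/
theorem result {E H M : Type} [NormedAddCommGroup E] [NormedSpace ℝ E] [TopologicalSpace H]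
    (I : ModelWithCorners ℝ E H) [TopologicalSpace M] [ChartedSpace H M] :
    IsLeast {N | ProjectivePlaneHasTotallySkewEmbedding N} 7 ∧
    (IsProjectivePlane I M → SkewDimensionIs I M 7) := by
  refine ⟨⟨plane_seven, fun N hN => plane_lower hN⟩, fun hM => ⟨descend hM plane_seven, ?_⟩⟩
  intro N hN
  exact plane_lower (lift hM hN)

end

end Pool.Agent.Results.MP_794fdb_gt.ProjectivePlaneSeven
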